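import Pool.Agent.H379R3.RgJ

/-!
# Modules attached to matrices, several generators for every index

The construction of `H379R3.GMod.MM` with an index type `ι` over `Fin n`: generators `ν_i`
(degree 0) and `e_j` (degree 1), `i, j ∈ ι`, with `x_{(i0, loc j)} ν_i = ∑ B i j e_j`, realised
inside `K^ι × K[X]^ι`.
-/

set_option autoImplicit false

open MvPolynomial

universe u

noncomputable section

namespace Pool.Agent.Y109.OI

open H379R3 H379R3.OIReg H379R3.GMod

variable {K : Type u} [Field K]

/-- finite products -/
lemma U_pi {σ : Type} {ι : Type} [Fintype ι] {k : ℕ} {r : ℤ} (G : ι → GMod K σ)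
    (h : ∀ i, U k (G i) r) : U k (pi G) r := by
  classical
  let e : Fin (Fintype.card ι) ≃ ι := (Fintype.equivFin ι).symm
  have h1 := U.pi (fun i : Fin (Fintype.card ι) => G (e i)) (fun i => h (e i))
  let f : (pi (fun i : Fin (Fintype.card ι) => G (e i))).carrier ≃ₗ[MvPolynomial σ K]
      (pi G).carrier := LinearEquiv.piCongrLeft (MvPolynomial σ K) (fun i => (G i).carrier) e
  refine h1.iso f ?_
  intro d u
  funext i
  obtain ⟨i', rfl⟩ := e.surjective i
  have e1 : ∀ v : (pi (fun i : Fin (Fintype.card ι) => G (e i))).carrier, f v (e i') = v i' :=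
    fun v => Equiv.piCongrLeft_apply_apply (fun i => (G i).carrier) e v i'
  change f ((pi (fun i : Fin (Fintype.card ι) => G (e i))).comp d u) (e i') =
    (G (e i')).comp d (f u (e i'))
  rw [e1, e1]
  rfl

section pair

variable {ι : Type} [Fintype ι]

/-- the pairing `a ↦ (∑ i, a i B i j)_j` as a linear map -/
def pairing (B : ι → ι → K) : (ι → K) →ₗ[K] (ι → K) where
  toFun a j := ∑ i, a i * B i j
  map_add' a b := by
    funext j
    rw [Pi.add_apply, ← Finset.sum_add_distrib]
    exact Finset.sum_congr rfl fun i _ => add_mul _ _ _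
  map_smul' r a := by
    funext j
    rw [Pi.smul_apply, smul_eq_mul, RingHom.id_apply, Finset.mul_sum]
    exact Finset.sum_congr rfl fun i _ => mul_assoc _ _ _

lemma bij_of_inj (B : ι → ι → K)
    (h : ∀ a : ι → K, (∀ j, ∑ i, a i * B i j = 0) → a = 0) :
    Function.Bijective (fun (a : ι → K) (j : ι) => ∑ i, a i * B i j) := by
  have h1 : Function.Injective (pairing B) := by
    rw [injective_iff_map_eq_zero]
    intro a ha
    exact h a (fun j => congrFun ha j)
  exact ⟨h1, LinearMap.injective_iff_surjective.mp h1⟩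

lemma not_surj (B : ι → ι → K) (a : ι → K) (ha : a ≠ 0)
    (h : ∀ j, ∑ i, a i * B i j = 0) :
    ¬ Function.Surjective (fun (a : ι → K) (j : ι) => ∑ i, a i * B i j) := by
  intro hs
  have h1 : Function.Surjective (pairing B) := hs
  have h2 := LinearMap.injective_iff_surjective.mpr h1
  apply ha
  apply h2
  rw [map_zero]
  funext j
  exact h j

end pair

section MM

variable {c n : ℕ} {ι : Type} [Fintype ι] (loc : ι → Fin n) (i0 : Fin c) (B : ι → ι → K)

/-- the ambient module -/
@[reducible] def amb (K : Type u) [Field K] {c n : ℕ} {ι : Type} [Fintype ι] (loc : ι → Fin n) (i0 : Fin c) :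
    GMod K (Fin c × Fin n) :=
  prod (pi (fun _ : ι => GK)) (pi (fun j : ι => GX (i0, loc j)))

/-- the `K^n`-part -/
def fa (u : (amb K loc i0).carrier) : ι → K := u.1

/-- the `K[X]^n`-part -/
def fg (u : (amb K loc i0).carrier) : ι → Polynomial K := u.2

lemma amb_ext {u v : (amb K loc i0).carrier} (h1 : fa loc i0 u = fa loc i0 v) (h2 : fg loc i0 u = fg loc i0 v) :
    u = v := Prod.ext h1 h2

lemma fa_add (u v : (amb K loc i0).carrier) : fa loc i0 (u + v) = fa loc i0 u + fa loc i0 v := rfl
lemma fg_add (u v : (amb K loc i0).carrier) : fg loc i0 (u + v) = fg loc i0 u + fg loc i0 v := rfl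
lemma fa_zero : fa loc i0 (0 : (amb K loc i0).carrier) = 0 := rfl
lemma fg_zero : fg loc i0 (0 : (amb K loc i0).carrier) = 0 := rfl
lemma fa_smul (p : MvPolynomial (Fin c × Fin n) K) (u : (amb K loc i0).carrier) (i : ι) :
    fa loc i0 (p • u) i = constantCoeff p * fa loc i0 u i := rfl
lemma fg_smul (p : MvPolynomial (Fin c × Fin n) K) (u : (amb K loc i0).carrier) (j : ι) :
    fg loc i0 (p • u) j = ev (i0, loc j) p * fg loc i0 u j := rfl
lemma fa_comp (d : ℤ) (u : (amb K loc i0).carrier) (i : ι) :
    fa loc i0 ((amb K loc i0).comp d u) i = if d = 0 then fa loc i0 u i else 0 := by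
  change (if d = 0 then AddMonoidHom.id K else 0) (fa loc i0 u i) = _
  split_ifs <;> rfl
lemma fg_comp (d : ℤ) (u : (amb K loc i0).carrier) (j : ι) :
    fg loc i0 ((amb K loc i0).comp d u) j = pcomp d (fg loc i0 u j) := rfl

/-- the submodule -/
def Msub : Submodule (MvPolynomial (Fin c × Fin n) K) (amb K loc i0).carrier where
  carrier := {u | ∀ j, (fg loc i0 u j).coeff 0 = ∑ i, fa loc i0 u i * B i j}
  add_mem' := by
    intro a b ha hb j
    rw [fg_add, fa_add, Pi.add_apply, Polynomial.coeff_add, ha, hb, ← Finset.sum_add_distrib]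
    exact Finset.sum_congr rfl fun i _ => (add_mul _ _ _).symm
  zero_mem' := by
    intro j
    rw [fg_zero, fa_zero]
    simp
  smul_mem' := by
    intro p a ha j
    rw [fg_smul, Polynomial.mul_coeff_zero, coeff_zero_ev, ha, Finset.mul_sum]
    exact Finset.sum_congr rfl fun i _ => by rw [fa_smul, mul_assoc]

lemma mem_Msub {u : (amb K loc i0).carrier} :
    u ∈ Msub loc i0 B ↔ ∀ j, (fg loc i0 u j).coeff 0 = ∑ i, fa loc i0 u i * B i j := Iff.rfl

lemma Msub_closed : ∀ d, ∀ u ∈ Msub loc i0 B, (amb K loc i0).comp d u ∈ Msub loc i0 B := by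
  intro d u hu j
  rw [fg_comp, coeff_pcomp]
  have e1 : ∑ i, fa loc i0 ((amb K loc i0).comp d u) i * B i j =
      ∑ i, (if d = 0 then fa loc i0 u i else 0) * B i j :=
    Finset.sum_congr rfl fun i _ => by rw [fa_comp]
  rw [e1]
  by_cases h : d = 0
  · subst h
    simpa using hu j
  · rw [if_neg (by push_cast; omega)]
    simp [h]

/-- the graded module attached to `B` -/
@[reducible] def MM : GMod K (Fin c × Fin n) := (amb K loc i0).sub (Msub loc i0 B) (Msub_closed loc i0 B)

/-- the nonsingular case: `M ≅ ∏ K[x_j]` -/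
theorem MM_U (hB : Function.Bijective (fun (a : ι → K) (j : ι) => ∑ i, a i * B i j))
    (k : ℕ) : U k (MM loc i0 B) 0 := by
  classical
  have h1 : ∀ v : Fin c × Fin n, U k (GX (K := K) v) 0 := fun v => GX_U k v
  have h2 := U_pi (k := k) (r := 0) (fun j : ι => GX (K := K) (i0, loc j)) (fun j => h1 (i0, loc j))
  let φ : (MM loc i0 B).carrier →ₗ[MvPolynomial (Fin c × Fin n) K]
      (pi (fun j : ι => GX (K := K) (i0, loc j))).carrier :=
    { toFun := fun u => u.1.2
      map_add' := fun _ _ => rfl
      map_smul' := fun _ _ => rfl }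
  have hφ : Function.Bijective φ := by
    constructor
    · intro u v huv
      have huv' : fg loc i0 u.1 = fg loc i0 v.1 := huv
      apply Subtype.ext
      refine amb_ext loc i0 ?_ huv'
      apply hB.1
      funext j
      have e1 := u.2 j
      have e2 := v.2 j
      rw [huv'] at e1
      exact e1.symm.trans e2
    · intro g
      let g' : ι → Polynomial K := g
      obtain ⟨a, ha⟩ := hB.2 (fun j => (g' j).coeff 0)
      let w : (amb K loc i0).carrier := (a, g)
      have hw : w ∈ Msub loc i0 B := by
        intro j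
        exact (congrFun ha j).symm
      exact ⟨⟨w, hw⟩, rfl⟩
  refine h2.iso (LinearEquiv.ofBijective φ hφ).symm ?_
  intro d g
  apply hφ.1
  have e1 : ∀ g, φ ((LinearEquiv.ofBijective φ hφ).symm g) = g :=
    fun g => (LinearEquiv.ofBijective φ hφ).apply_symm_apply g
  have e2 : ∀ u, φ ((MM loc i0 B).comp d u) = (pi (fun j : ι => GX (K := K) (i0, loc j))).comp d
    (φ u) := fun u => rfl
  change φ ((LinearEquiv.ofBijective φ hφ).symm _) =
    φ ((MM loc i0 B).comp d ((LinearEquiv.ofBijective φ hφ).symm g))
  rw [e1, e2, e1]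

/-- the singular case -/
theorem MM_not_U (hB : ¬ Function.Surjective (fun (a : ι → K) (j : ι) => ∑ i, a i * B i j)) :
    ¬ U (Fintype.card (Fin c × Fin n)) (MM loc i0 B) 0 := by
  classical
  intro hU
  apply hB
  intro b
  let e : Fin c × Fin n → (MM loc i0 B).carrier := fun v =>
    ⟨((0, fun j => if v = (i0, loc j) then Polynomial.C (b j) * Polynomial.X else 0) :
      (ι → K) × (ι → Polynomial K)), by
      intro j
      change Polynomial.coeff (if v = (i0, loc j) then Polynomial.C (b j) * Polynomial.X else 0) 0 =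
        ∑ i, (0 : K) * B i j
      split_ifs <;> simp⟩
  have he : ∀ v j, fg loc i0 (e v).1 j =
    if v = (i0, loc j) then Polynomial.C (b j) * Polynomial.X else 0 := fun v j => rfl
  have hea : ∀ v, fa loc i0 (e v).1 = 0 := fun v => rfl
  obtain ⟨u, hu⟩ := U_ext_one (Finset.univ.toList : List (Fin c × Fin n)) (Finset.nodup_toList _)
    (by simp) (MM loc i0 B) 0 (by rw [Finset.length_toList]; exact hU) e
    (by
      intro v
      apply Subtype.ext
      refine amb_ext loc i0 ?_ ?_
      · funext i
        change fa loc i0 ((amb K loc i0).comp (0 + 1) (e v).1) i = _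
        rw [fa_comp, hea]; simp
      · funext j
        change fg loc i0 ((amb K loc i0).comp (0 + 1) (e v).1) j = _
        rw [fg_comp, he]
        split_ifs
        · ext k
          rw [coeff_pcomp, Polynomial.coeff_C_mul, Polynomial.coeff_X]
          by_cases hk : 1 = k
          · subst hk; simp
          · rw [if_neg hk]; simp
        · rw [map_zero])
    (by
      intro v w
      apply Subtype.ext
      refine amb_ext loc i0 ?_ ?_
      · funext i
        change fa loc i0 ((X v : MvPolynomial (Fin c × Fin n) K) • (e w).1) i =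
          fa loc i0 ((X w : MvPolynomial (Fin c × Fin n) K) • (e v).1) i
        rw [fa_smul, fa_smul, hea, hea]; simp
      · funext j
        change fg loc i0 ((X v : MvPolynomial (Fin c × Fin n) K) • (e w).1) j =
          fg loc i0 ((X w : MvPolynomial (Fin c × Fin n) K) • (e v).1) j
        rw [fg_smul, fg_smul, he, he, ev_X, ev_X]
        by_cases h1 : v = (i0, loc j)
        · by_cases h2 : w = (i0, loc j)
          · rw [if_pos h1, if_pos h1, if_pos h2, if_pos h2]
          · rw [if_pos h1, if_pos h1, if_neg h2, if_neg h2, mul_zero, zero_mul]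
        · by_cases h2 : w = (i0, loc j)
          · rw [if_neg h1, if_neg h1, if_pos h2, if_pos h2, mul_zero, zero_mul]
          · rw [if_neg h1, if_neg h1, if_neg h2, if_neg h2])
  refine ⟨fa loc i0 u.1, ?_⟩
  funext j
  have h1 : fg loc i0 (e (i0, loc j)).1 j =
      fg loc i0 ((X (i0, loc j) : MvPolynomial (Fin c × Fin n) K) • u.1) j := by
    rw [hu (i0, loc j)]; rfl
  rw [he, if_pos rfl, fg_smul, ev_X, if_pos rfl] at h1
  have h2 := congrArg (fun f : Polynomial K => f.coeff 1) h1
  simp only [Polynomial.coeff_C_mul, Polynomial.coeff_X_one, mul_one] at h2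
  rw [show (1 : ℕ) = 0 + 1 from rfl, Polynomial.coeff_X_mul] at h2
  rw [h2]
  exact (u.2 j).symm

/-- regularity zero in the nonsingular case -/
theorem hasReg_iff (t0 : ι)
    (hB : Function.Bijective (fun (a : ι → K) (j : ι) => ∑ i, a i * B i j)) (r : ℤ)
    (h : IsRegularity (σ := Fin c × Fin n) (K := K) (MM loc i0 B).piece r) : r = 0 := by
  apply le_antisymm
  · exact reg_le (MM_U loc i0 B hB) h
  · refine le_reg ?_ ?_ h
    · intro d hd u
      apply Subtype.ext
      refine amb_ext loc i0 ?_ ?_
      · funext i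
        change fa loc i0 ((amb K loc i0).comp d u.1) i = _
        rw [fa_comp, if_neg (by omega)]; rfl
      · funext j
        change fg loc i0 ((amb K loc i0).comp d u.1) j = _
        rw [fg_comp]
        ext k
        rw [coeff_pcomp, if_neg (by omega)]
        rfl
    · let e : (MM loc i0 B).carrier :=
        ⟨((0, fun j => Polynomial.X) : (ι → K) × (ι → Polynomial K)), by
          intro j
          change Polynomial.coeff Polynomial.X 0 = ∑ i, (0 : K) * B i j
          simp⟩
      refine ⟨⟨e, 0, ?_⟩⟩
      intro h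
      have h1 : fg loc i0 e.1 t0 = fg loc i0 (0 : (amb K loc i0).carrier) t0 := by rw [h]; rfl
      rw [fg_zero] at h1
      change (Polynomial.X : Polynomial K) = 0 at h1
      exact Polynomial.X_ne_zero h1

/-- positive regularity in the singular case -/
theorem one_le_reg
    (hB : ¬ Function.Surjective (fun (a : ι → K) (j : ι) => ∑ i, a i * B i j)) (r : ℤ)
    (h : IsRegularity (σ := Fin c × Fin n) (K := K) (MM loc i0 B).piece r) : 1 ≤ r := by
  by_contra hr
  exact MM_not_U loc i0 B hB (U_of_reg (by omega) h _)

/-- the underlying polynomials -/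
def gq (g : (pi (fun j : ι => (GX (K := K) (i0, loc j)).shift)).carrier) : ι → Polynomial K := g

theorem MM_U_one (k : ℕ) : U k (MM loc i0 B) 1 := by
  have h1 : U k (pi (fun j : ι => (GX (K := K) (i0, loc j)).shift)) 1 :=
    U_pi _ (fun j => (GX_U k (i0, loc j)).shift)
  have h2 : U k (pi (fun _ : ι => GK (K := K) (σ := Fin c × Fin n))) 1 :=
    U_pi _ (fun j => (GK_U k).mono (by norm_num))
  let j : (pi (fun j : ι => (GX (K := K) (i0, loc j)).shift)).carrier
      →ₗ[MvPolynomial (Fin c × Fin n) K] (MM loc i0 B).carrier :=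
    { toFun := fun g => ⟨((0, fun j => Polynomial.X * gq loc i0 g j) :
        (ι → K) × (ι → Polynomial K)), by
          intro j
          change Polynomial.coeff (Polynomial.X * gq loc i0 g j) 0 = ∑ i, (0 : K) * B i j
          simp⟩
      map_add' := fun g g' => by
        apply Subtype.ext
        refine amb_ext loc i0 ?_ ?_
        · exact (add_zero (0 : ι → K)).symm
        · funext j
          exact mul_add (Polynomial.X : Polynomial K) (gq loc i0 g j) (gq loc i0 g' j)
      map_smul' := fun p g => by
        apply Subtype.ext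
        refine amb_ext loc i0 ?_ ?_
        · funext i
          exact (mul_zero (constantCoeff p)).symm
        · funext j
          exact mul_left_comm (Polynomial.X : Polynomial K) (ev (i0, loc j) p) (gq loc i0 g j) }
  let q : (MM loc i0 B).carrier →ₗ[MvPolynomial (Fin c × Fin n) K]
      (pi (fun _ : ι => GK (K := K) (σ := Fin c × Fin n))).carrier :=
    { toFun := fun u => u.1.1
      map_add' := fun _ _ => rfl
      map_smul' := fun _ _ => rfl }
  refine U.horseshoe (j := j) (q := q) ⟨?_, fun _ _ => rfl, ?_, ?_, ?_⟩ h1 h2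
  · intro d g
    apply Subtype.ext
    refine amb_ext loc i0 ?_ ?_
    · funext i
      change (0 : K) = fa loc i0 ((amb K loc i0).comp d (j g).1) i
      rw [fa_comp]
      change (0 : K) = if d = 0 then 0 else 0
      simp
    · funext i
      change Polynomial.X * pcomp (d - 1) (gq loc i0 g i) =
        pcomp d (Polynomial.X * gq loc i0 g i)
      ext k
      rw [coeff_pcomp]
      cases k with
      | zero => simp
      | succ k =>
        rw [Polynomial.coeff_X_mul, Polynomial.coeff_X_mul, coeff_pcomp]
        push_cast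
        by_cases h2 : (k : ℤ) = d - 1
        · rw [if_pos h2, if_pos (by omega)]
        · rw [if_neg h2, if_neg (by omega)]
  · intro g g' hg
    funext i
    have h3 : fg loc i0 (j g).1 i = fg loc i0 (j g').1 i := by rw [hg]
    change Polynomial.X * gq loc i0 g i = Polynomial.X * gq loc i0 g' i at h3
    have h4 : gq loc i0 g i = gq loc i0 g' i := mul_left_cancel₀ Polynomial.X_ne_zero h3
    exact h4
  · intro a
    let a' : ι → K := a
    refine ⟨⟨((a', fun j => Polynomial.C (∑ i, a' i * B i j)) :
      (ι → K) × (ι → Polynomial K)), ?_⟩, rfl⟩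
    intro j
    exact Polynomial.coeff_C_zero
  · intro u
    constructor
    · intro hu
      have hu' : fa loc i0 u.1 = 0 := hu
      refine ⟨fun i => Polynomial.divX (fg loc i0 u.1 i), ?_⟩
      apply Subtype.ext
      refine amb_ext loc i0 ?_ ?_
      · exact hu'.symm
      · funext i
        change Polynomial.X * Polynomial.divX (fg loc i0 u.1 i) = fg loc i0 u.1 i
        have h3 := Polynomial.divX_mul_X_add (fg loc i0 u.1 i)
        rw [u.2 i, hu'] at h3
        simp only [Pi.zero_apply, zero_mul, Finset.sum_const_zero, Polynomial.C_0,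
          add_zero] at h3
        rw [mul_comm]; exact h3
    · rintro ⟨g, rfl⟩
      rfl

lemma MM_nontrivial (t0 : ι) : Nontrivial (MM loc i0 B).carrier := by
  let e : (MM loc i0 B).carrier :=
    ⟨((0, fun j => Polynomial.X) : (ι → K) × (ι → Polynomial K)), by
      intro j
      change Polynomial.coeff Polynomial.X 0 = ∑ i, (0 : K) * B i j
      simp⟩
  refine ⟨⟨e, 0, ?_⟩⟩
  intro h
  have h1 : fg loc i0 e.1 t0 = fg loc i0 (0 : (amb K loc i0).carrier) t0 := by rw [h]; rfl
  rw [fg_zero] at h1
  change (Polynomial.X : Polynomial K) = 0 at h1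
  exact Polynomial.X_ne_zero h1

lemma MM_finite : Module.Finite (MvPolynomial (Fin c × Fin n) K) (MM loc i0 B).carrier := by
  classical
  have hX : ∀ v : Fin c × Fin n,
      Module.Finite (MvPolynomial (Fin c × Fin n) K) (GX (K := K) v).carrier := by
    intro v
    let ρ : MvPolynomial (Fin c × Fin n) K →ₗ[MvPolynomial (Fin c × Fin n) K]
        (GX (K := K) v).carrier :=
      { toFun := fun f => ev v f
        map_add' := fun f g => map_add (ev v) f g
        map_smul' := fun p f => map_mul (ev v) p f }
    apply Module.Finite.of_surjective ρ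
    intro f
    have hev : ∀ f : Polynomial K, ev v (Polynomial.aeval (X v) f) = f := by
      intro f
      rw [← Polynomial.aeval_algHom_apply, ev_X, if_pos rfl, Polynomial.aeval_X_left_apply]
    exact ⟨Polynomial.aeval (X v) (f : Polynomial K), hev f⟩
  have hK : Module.Finite (MvPolynomial (Fin c × Fin n) K)
      (GK (K := K) (σ := Fin c × Fin n)).carrier := by
    let ρ : MvPolynomial (Fin c × Fin n) K →ₗ[MvPolynomial (Fin c × Fin n) K]
        (GK (K := K) (σ := Fin c × Fin n)).carrier :=
      { toFun := fun f => constantCoeff (R := K) f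
        map_add' := fun f g => map_add constantCoeff f g
        map_smul' := fun p f => map_mul constantCoeff p f }
    apply Module.Finite.of_surjective ρ
    intro f
    exact ⟨C (f : K), constantCoeff_C (R := K) (Fin c × Fin n) (f : K)⟩
  have h1 : IsNoetherian (MvPolynomial (Fin c × Fin n) K) (amb K loc i0).carrier := by
    have h2 : ∀ j : ι, IsNoetherian (MvPolynomial (Fin c × Fin n) K)
      (GX (K := K) (i0, loc j)).carrier := fun j => isNoetherian_of_isNoetherianRing_of_finite _ _
    have h3 : IsNoetherian (MvPolynomial (Fin c × Fin n) K)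
      (GK (K := K) (σ := Fin c × Fin n)).carrier := isNoetherian_of_isNoetherianRing_of_finite _ _
    infer_instance
  exact Module.Finite.iff_fg.mpr (h1.noetherian (Msub loc i0 B))

/-- Nonsingular case: `reg = 0`. -/
theorem reg_bij (t0 : ι)
    (hB : Function.Bijective (fun (a : ι → K) (j : ι) => ∑ i, a i * B i j)) (r : ℤ) :
    IsRegularity (σ := Fin c × Fin n) (K := K) (MM loc i0 B).piece r ↔ r = 0 := by
  constructor
  · exact hasReg_iff loc i0 B t0 hB r
  · rintro rfl
    have h1 := MM_finite loc i0 B
    have h2 := MM_nontrivial loc i0 B t0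
    obtain ⟨r', hr'⟩ := exists_reg (MM loc i0 B) 0 (MM_U loc i0 B hB)
    have h3 := hasReg_iff loc i0 B t0 hB r' hr'
    rw [h3] at hr'
    exact hr'

/-- Singular case: `reg = 1`. -/
theorem reg_sing (t0 : ι)
    (hB : ¬ Function.Surjective (fun (a : ι → K) (j : ι) => ∑ i, a i * B i j)) (r : ℤ) :
    IsRegularity (σ := Fin c × Fin n) (K := K) (MM loc i0 B).piece r ↔ r = 1 := by
  have key : ∀ r, IsRegularity (σ := Fin c × Fin n) (K := K) (MM loc i0 B).piece r → r = 1 :=
    fun r h => le_antisymm (reg_le (MM_U_one loc i0 B) h) (one_le_reg loc i0 B hB r h)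
  constructor
  · exact key r
  · rintro rfl
    have h1 := MM_finite loc i0 B
    have h2 := MM_nontrivial loc i0 B t0
    obtain ⟨r', hr'⟩ := exists_reg (MM loc i0 B) 1 (MM_U_one loc i0 B)
    have h3 := key r' hr'
    rw [h3] at hr'
    exact hr'

end MM

end Pool.Agent.Y109.OI
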