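import Pool.Agent.Y109.OI.A

/-!
# The OI-module attached to a compatible family of matrices, several generators in width one
-/

set_option autoImplicit false

open MvPolynomial

universe u

noncomputable section

namespace Pool.Agent.Y109.OI

open H379R3 H379R3.OIReg H379R3.GMod

section

variable {K : Type u} [Field K] {c : ℕ} {κ : Type} [Fintype κ] (i0 : Fin c)
  (B : ∀ n, Fin n × κ → Fin n × κ → K)

/-- the value at `[n]` -/
@[reducible] def OM (n : ℕ) : GMod K (Fin c × Fin n) := MM (Prod.fst : Fin n × κ → Fin n) i0 (B n)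

/-- coordinates -/
def faH {n : ℕ} (i : Fin n × κ) : (OM i0 B n).carrier →+ K where
  toFun u := fa Prod.fst i0 u.1 i
  map_zero' := rfl
  map_add' _ _ := rfl

/-- coordinates -/
def fgH {n : ℕ} (j : Fin n × κ) : (OM i0 B n).carrier →+ Polynomial K where
  toFun u := fg Prod.fst i0 u.1 j
  map_zero' := rfl
  map_add' _ _ := rfl

lemma OM_ext {n : ℕ} {u v : (OM i0 B n).carrier} (h1 : ∀ i, faH i0 B i u = faH i0 B i v)
    (h2 : ∀ j, fgH i0 B j u = fgH i0 B j v) : u = v :=
  Subtype.ext (amb_ext Prod.fst i0 (funext h1) (funext h2))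

lemma fgH_coeff {n : ℕ} (u : (OM i0 B n).carrier) (j : Fin n × κ) :
    (fgH i0 B j u).coeff 0 = ∑ i, faH i0 B i u * B n i j := u.2 j

lemma faH_smul {n : ℕ} (p : PolyAlg K c n) (u : (OM i0 B n).carrier) (i : Fin n × κ) :
    faH i0 B i (p • u) = constantCoeff p * faH i0 B i u := rfl

lemma fgH_smul {n : ℕ} (p : PolyAlg K c n) (u : (OM i0 B n).carrier) (j : Fin n × κ) :
    fgH i0 B j (p • u) = ev (i0, j.1) p * fgH i0 B j u := rfl

lemma faH_comp {n : ℕ} (d : ℤ) (u : (OM i0 B n).carrier) (i : Fin n × κ) :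
    faH i0 B i ((OM i0 B n).comp d u) = if d = 0 then faH i0 B i u else 0 :=
  fa_comp Prod.fst i0 d u.1 i

lemma fgH_comp {n : ℕ} (d : ℤ) (u : (OM i0 B n).carrier) (j : Fin n × κ) :
    fgH i0 B j ((OM i0 B n).comp d u) = pcomp d (fgH i0 B j u) := rfl

/-- constructor -/
def mkM {n : ℕ} (a : Fin n × κ → K) (g : Fin n × κ → Polynomial K)
    (h : ∀ j, (g j).coeff 0 = ∑ i, a i * B n i j) : (OM i0 B n).carrier :=
  ⟨((a, g) : (Fin n × κ → K) × (Fin n × κ → Polynomial K)), h⟩

lemma faH_mk {n : ℕ} (a : Fin n × κ → K) (g : Fin n × κ → Polynomial K) (h) (i : Fin n × κ) :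
    faH i0 B i (mkM i0 B a g h) = a i := rfl

lemma fgH_mk {n : ℕ} (a : Fin n × κ → K) (g : Fin n × κ → Polynomial K) (h) (j : Fin n × κ) :
    fgH i0 B j (mkM i0 B a g h) = g j := rfl

lemma sum_extend {α β : Type} [Fintype α] [Fintype β] (ε : α → β) (hε : Function.Injective ε)
    (a : α → K) (b : β → K) : ∑ i, Function.extend ε a 0 i * b i = ∑ i, a i * b (ε i) := by
  symm
  apply Fintype.sum_of_injective ε hε
  · intro i hi
    rw [Function.extend_apply' _ _ _ hi, Pi.zero_apply, zero_mul]
  · intro i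
    rw [hε.extend_apply]

/-- the map on the index sets -/
def hat {m n : ℕ} (ε : Fin m → Fin n) : Fin m × κ → Fin n × κ := Prod.map ε id

/-- maps preserving the matrices -/
structure Compat {m n : ℕ} (ε : Fin m → Fin n) : Prop where
  inj : Function.Injective ε
  eq : ∀ i j, B n (hat ε i) (hat ε j) = B m i j

variable {B} in
lemma Compat.injh {m n : ℕ} {ε : Fin m → Fin n} (hε : Compat B ε) :
    Function.Injective (hat (κ := κ) ε) := hε.inj.prodMap Function.injective_id

/-- the structure maps -/
def mmap {m n : ℕ} (ε : Fin m → Fin n) (hε : Compat B ε) :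
    (OM i0 B m).carrier →+ (OM i0 B n).carrier where
  toFun u := mkM i0 B (Function.extend (hat ε) (fun i => faH i0 B i u) 0)
    (Function.extend (hat ε) (fun j => fgH i0 B j u)
      (fun j => Polynomial.C (∑ i, faH i0 B i u * B n (hat ε i) j))) (by
      intro j
      rw [sum_extend (hat ε) hε.injh]
      by_cases hj : ∃ j', hat ε j' = j
      · obtain ⟨j', rfl⟩ := hj
        rw [hε.injh.extend_apply, fgH_coeff]
        exact Finset.sum_congr rfl fun i _ => by rw [hε.eq]
      · rw [Function.extend_apply' _ _ _ hj, Polynomial.coeff_C_zero])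
  map_zero' := by
    apply OM_ext
    · intro i
      rw [faH_mk]
      by_cases hi : ∃ i', hat ε i' = i
      · obtain ⟨i', rfl⟩ := hi
        rw [hε.injh.extend_apply, map_zero, map_zero]
      · rw [Function.extend_apply' _ _ _ hi]; simp
    · intro i
      rw [fgH_mk]
      by_cases hi : ∃ i', hat ε i' = i
      · obtain ⟨i', rfl⟩ := hi
        rw [hε.injh.extend_apply, map_zero, map_zero]
      · rw [Function.extend_apply' _ _ _ hi]; simp
  map_add' u v := by
    apply OM_ext
    · intro i
      rw [map_add, faH_mk, faH_mk, faH_mk]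
      by_cases hi : ∃ i', hat ε i' = i
      · obtain ⟨i', rfl⟩ := hi
        rw [hε.injh.extend_apply, hε.injh.extend_apply, hε.injh.extend_apply, map_add]
      · rw [Function.extend_apply' _ _ _ hi, Function.extend_apply' _ _ _ hi,
          Function.extend_apply' _ _ _ hi]; simp
    · intro i
      rw [map_add, fgH_mk, fgH_mk, fgH_mk]
      by_cases hi : ∃ i', hat ε i' = i
      · obtain ⟨i', rfl⟩ := hi
        rw [hε.injh.extend_apply, hε.injh.extend_apply, hε.injh.extend_apply, map_add]
      · rw [Function.extend_apply' _ _ _ hi, Function.extend_apply' _ _ _ hi,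
          Function.extend_apply' _ _ _ hi, ← Polynomial.C_add, ← Finset.sum_add_distrib]
        congr 1
        exact Finset.sum_congr rfl fun i _ => by rw [map_add, add_mul]

lemma faH_mmap {m n : ℕ} (ε : Fin m → Fin n) (hε : Compat B ε) (u : (OM i0 B m).carrier)
    (i : Fin n × κ) : faH i0 B i (mmap i0 B ε hε u) = Function.extend (hat ε) (fun i => faH i0 B i u) 0 i :=
  rfl

lemma fgH_mmap {m n : ℕ} (ε : Fin m → Fin n) (hε : Compat B ε) (u : (OM i0 B m).carrier)
    (j : Fin n × κ) : fgH i0 B j (mmap i0 B ε hε u) = Function.extend (hat ε) (fun j => fgH i0 B j u)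
      (fun j => Polynomial.C (∑ i, faH i0 B i u * B n (hat ε i) j)) j :=
  rfl

lemma mmap_smul {m n : ℕ} (ε : Fin m → Fin n) (hε : Compat B ε) (p : PolyAlg K c m)
    (u : (OM i0 B m).carrier) :
    mmap i0 B ε hε (p • u) = PolyAlg.map K c ε p • mmap i0 B ε hε u := by
  have hcc : constantCoeff (PolyAlg.map K c ε p) = constantCoeff p := constantCoeff_rename _ _
  apply OM_ext
  · intro i
    rw [faH_smul, faH_mmap, faH_mmap, hcc]
    by_cases hi : ∃ i', hat ε i' = i
    · obtain ⟨i', rfl⟩ := hi
      rw [hε.injh.extend_apply, hε.injh.extend_apply, faH_smul]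
    · rw [Function.extend_apply' _ _ _ hi, Function.extend_apply' _ _ _ hi]; simp
  · intro j
    rw [fgH_smul, fgH_mmap, fgH_mmap]
    by_cases hj : ∃ j', hat ε j' = j
    · obtain ⟨j', rfl⟩ := hj
      rw [hε.injh.extend_apply, hε.injh.extend_apply, fgH_smul]
      congr 1
      rw [PolyAlg.map, ev, ev, aeval_rename]
      congr 2
      funext w
      obtain ⟨w1, w2⟩ := w
      change (if (w1, w2) = (i0, j'.1) then Polynomial.X else (0 : Polynomial K)) =
        if (w1, ε w2) = (i0, ε j'.1) then Polynomial.X else 0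
      by_cases h : w1 = i0 ∧ w2 = j'.1
      · obtain ⟨rfl, rfl⟩ := h; simp
      · rw [if_neg, if_neg]
        · intro h2
          rw [Prod.mk.injEq] at h2
          exact h ⟨h2.1, hε.inj h2.2⟩
        · intro h2
          rw [Prod.mk.injEq] at h2
          exact h h2
    · rw [Function.extend_apply' _ _ _ hj, Function.extend_apply' _ _ _ hj]
      have h1 : ev (i0, j.1) (PolyAlg.map K c ε p) = Polynomial.C (constantCoeff p) := by
        rw [PolyAlg.map, ev, aeval_rename]
        have h2 : ((fun w : Fin c × Fin n => if w = (i0, j.1) then Polynomial.X else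
            (0 : Polynomial K)) ∘ Prod.map id ε) = fun _ => 0 := by
          funext w
          obtain ⟨w1, w2⟩ := w
          change (if (w1, ε w2) = (i0, j.1) then Polynomial.X else (0 : Polynomial K)) = 0
          rw [if_neg]
          intro h3
          rw [Prod.mk.injEq] at h3
          exact hj ⟨(w2, j.2), Prod.ext h3.2 rfl⟩
        rw [h2, aeval_zero']
        rfl
      rw [h1, ← Polynomial.C_mul, Finset.mul_sum]
      congr 1
      exact Finset.sum_congr rfl fun i _ => by rw [faH_smul, mul_assoc]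

lemma mmap_comp {m n : ℕ} (ε : Fin m → Fin n) (hε : Compat B ε) (d : ℤ)
    (u : (OM i0 B m).carrier) :
    (OM i0 B n).comp d (mmap i0 B ε hε u) = mmap i0 B ε hε ((OM i0 B m).comp d u) := by
  apply OM_ext
  · intro i
    rw [faH_comp, faH_mmap, faH_mmap]
    by_cases hi : ∃ i', hat ε i' = i
    · obtain ⟨i', rfl⟩ := hi
      rw [hε.injh.extend_apply, hε.injh.extend_apply, faH_comp]
    · rw [Function.extend_apply' _ _ _ hi, Function.extend_apply' _ _ _ hi]; simp
  · intro j
    rw [fgH_comp, fgH_mmap, fgH_mmap]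
    by_cases hj : ∃ j', hat ε j' = j
    · obtain ⟨j', rfl⟩ := hj
      rw [hε.injh.extend_apply, hε.injh.extend_apply, fgH_comp]
    · rw [Function.extend_apply' _ _ _ hj, Function.extend_apply' _ _ _ hj]
      have e1 : ∑ i, faH i0 B i ((OM i0 B m).comp d u) * B n (hat ε i) j =
          ∑ i, (if d = 0 then faH i0 B i u else 0) * B n (hat ε i) j :=
        Finset.sum_congr rfl fun i _ => by rw [faH_comp]
      rw [e1]
      ext k
      rw [coeff_pcomp, Polynomial.coeff_C, Polynomial.coeff_C]
      by_cases hk : k = 0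
      · subst hk
        by_cases hd : d = 0
        · subst hd; simp
        · rw [if_neg (by push_cast; omega)]
          simp [hd]
      · simp [hk]

lemma mmap_id {n : ℕ} (ε : Fin n → Fin n) (hε : Compat B ε) (h : ∀ i, ε i = i)
    (u : (OM i0 B n).carrier) : mmap i0 B ε hε u = u := by
  have hh : ∀ i : Fin n × κ, hat ε i = i := fun i => Prod.ext (h i.1) rfl
  apply OM_ext
  · intro i
    rw [faH_mmap]
    conv_lhs => rw [← hh i]
    rw [hε.injh.extend_apply]
  · intro i
    rw [fgH_mmap]
    conv_lhs => rw [← hh i]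
    rw [hε.injh.extend_apply]

lemma mmap_trans {l m n : ℕ} (ε : Fin l → Fin m) (hε : Compat B ε) (δ : Fin m → Fin n)
    (hδ : Compat B δ) (τ : Fin l → Fin n) (hτ : Compat B τ) (h : ∀ i, τ i = δ (ε i))
    (u : (OM i0 B l).carrier) : mmap i0 B τ hτ u = mmap i0 B δ hδ (mmap i0 B ε hε u) := by
  have hh : ∀ i : Fin l × κ, hat τ i = hat δ (hat ε i) := fun i => Prod.ext (h i.1) rfl
  apply OM_ext
  · intro i
    rw [faH_mmap, faH_mmap]
    by_cases hi : ∃ i', hat δ i' = i
    · obtain ⟨i', rfl⟩ := hi
      rw [hδ.injh.extend_apply, faH_mmap]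
      by_cases hi : ∃ i'', hat ε i'' = i'
      · obtain ⟨i'', rfl⟩ := hi
        rw [hε.injh.extend_apply, ← hh, hτ.injh.extend_apply]
      · rw [Function.extend_apply' _ _ _ hi, Function.extend_apply']
        · rfl
        · rintro ⟨a, ha⟩
          rw [hh] at ha
          exact hi ⟨a, hδ.injh ha⟩
    · rw [Function.extend_apply' _ _ _ hi, Function.extend_apply']
      rintro ⟨a, ha⟩
      rw [hh] at ha
      exact hi ⟨_, ha⟩
  · intro j
    rw [fgH_mmap, fgH_mmap]
    by_cases hj : ∃ i', hat δ i' = j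
    · obtain ⟨j', rfl⟩ := hj
      rw [hδ.injh.extend_apply, fgH_mmap]
      by_cases hj : ∃ i'', hat ε i'' = j'
      · obtain ⟨j'', rfl⟩ := hj
        rw [hε.injh.extend_apply, ← hh, hτ.injh.extend_apply]
      · rw [Function.extend_apply' _ _ _ hj, Function.extend_apply']
        · congr 1
          exact Finset.sum_congr rfl fun i _ => by rw [hh, hδ.eq]
        · rintro ⟨a, ha⟩
          rw [hh] at ha
          exact hj ⟨a, hδ.injh ha⟩
    · rw [Function.extend_apply' _ _ _ hj, Function.extend_apply']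
      · congr 1
        have h1 := sum_extend (hat ε) hε.injh (fun i => faH i0 B i u) (fun i => B n (hat δ i) j)
        refine Eq.trans ?_ h1.symm
        exact Finset.sum_congr rfl fun i _ => by rw [hh]
      · rintro ⟨a, ha⟩
        rw [hh] at ha
        exact hj ⟨_, ha⟩

variable [DecidableEq κ]

/-- the generator `ν_s` -/
def nu (s : κ) : (OM i0 B 1).carrier :=
  mkM i0 B (fun i => if i = (0, s) then 1 else 0) (fun j => Polynomial.C (B 1 (0, s) j)) (by
    intro j; simp)

/-- the generator `e_s` -/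
def ee (s : κ) : (OM i0 B 1).carrier :=
  mkM i0 B (fun _ => 0) (fun j => if j = (0, s) then Polynomial.X else 0) (by
    intro j; split_ifs <;> simp)

lemma nu_mem (s : κ) : (OM i0 B 1).comp 0 (nu i0 B s) = nu i0 B s := by
  apply OM_ext
  · intro i
    rw [faH_comp, if_pos rfl]
  · intro j
    rw [fgH_comp, nu, fgH_mk]
    ext k
    rw [coeff_pcomp, Polynomial.coeff_C]
    by_cases hk : k = 0
    · subst hk; simp
    · simp [hk]

lemma ee_mem (s : κ) : (OM i0 B 1).comp 1 (ee i0 B s) = ee i0 B s := by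
  apply OM_ext
  · intro i
    rw [faH_comp, ee, faH_mk]; simp
  · intro j
    rw [fgH_comp, ee, fgH_mk]
    split_ifs
    · ext k
      rw [coeff_pcomp, Polynomial.coeff_X]
      by_cases hk : 1 = k
      · subst hk; simp
      · simp [hk]
    · rw [map_zero]

/-- every element is a combination of the images of the generators -/
lemma gen {n : ℕ} (pt : Fin n → (Fin 1 → Fin n)) (hpt : ∀ i, Compat B (pt i))
    (hpt2 : ∀ i x, pt i x = i) (S : Submodule (PolyAlg K c n) (OM i0 B n).carrier)
    (h1 : ∀ (i : Fin n) (s : κ), mmap i0 B (pt i) (hpt i) (nu i0 B s) ∈ S)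
    (h2 : ∀ (i : Fin n) (s : κ), mmap i0 B (pt i) (hpt i) (ee i0 B s) ∈ S) : S = ⊤ := by
  classical
  rw [eq_top_iff]
  intro u _
  have hk : ∀ (i : Fin n) (s : κ), hat (pt i) ((0 : Fin 1), s) = (i, s) :=
    fun i s => Prod.ext (hpt2 i 0) rfl
  have hno : ∀ (i : Fin n) (k : Fin n × κ), i ≠ k.1 → ¬ ∃ a, hat (pt i) a = k := by
    rintro i k hne ⟨a, rfl⟩
    exact hne (hpt2 i a.1).symm
  have hx : ∀ {α : Type u} (g : Fin 1 × κ → α) (e' : Fin n × κ → α) (i : Fin n) (s : κ),
      Function.extend (hat (pt i)) g e' (i, s) = g (0, s) := by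
    intro α g e' i s
    have := (hpt i).injh.extend_apply g e' (0, s)
    rw [hk] at this
    exact this
  have hnu1 : ∀ (i k : Fin n × κ), faH i0 B k (mmap i0 B (pt i.1) (hpt i.1) (nu i0 B i.2)) =
      if i = k then 1 else 0 := by
    rintro ⟨i, s⟩ ⟨k, s'⟩
    rw [faH_mmap]
    by_cases h : i = k
    · subst h
      rw [hx, nu, faH_mk]
      by_cases h' : s = s'
      · subst h'; simp
      · rw [if_neg (by simpa using fun h2 : s' = s => h' h2.symm), if_neg (by simpa using h')]
    · rw [if_neg (by simp [h]), Function.extend_apply' _ _ _ (hno i (k, s') h)]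
      rfl
  have hnu2 : ∀ (i k : Fin n × κ), fgH i0 B k (mmap i0 B (pt i.1) (hpt i.1) (nu i0 B i.2)) =
      Polynomial.C (B n i k) := by
    rintro ⟨i, s⟩ ⟨k, s'⟩
    rw [fgH_mmap]
    by_cases h : i = k
    · subst h
      rw [hx, nu, fgH_mk, ← (hpt i).eq (0, s) (0, s'), hk, hk]
    · rw [Function.extend_apply' _ _ _ (hno i (k, s') h)]
      congr 1
      rw [Finset.sum_eq_single ((0 : Fin 1), s)]
      · rw [hk, nu, faH_mk, if_pos rfl, one_mul]
      · intro b _ hb
        rw [nu, faH_mk, if_neg hb, zero_mul]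
      · simp
  have hee1 : ∀ (i k : Fin n × κ), faH i0 B k (mmap i0 B (pt i.1) (hpt i.1) (ee i0 B i.2)) =
      0 := by
    rintro ⟨i, s⟩ ⟨k, s'⟩
    rw [faH_mmap]
    by_cases h : i = k
    · subst h
      rw [hx]
      rfl
    · rw [Function.extend_apply' _ _ _ (hno i (k, s') h)]
      rfl
  have hee2 : ∀ (i k : Fin n × κ), fgH i0 B k (mmap i0 B (pt i.1) (hpt i.1) (ee i0 B i.2)) =
      if i = k then Polynomial.X else 0 := by
    rintro ⟨i, s⟩ ⟨k, s'⟩
    rw [fgH_mmap]
    by_cases h : i = k
    · subst h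
      rw [hx, ee, fgH_mk]
      by_cases h' : s = s'
      · subst h'; simp
      · rw [if_neg (by simpa using fun h2 : s' = s => h' h2.symm), if_neg (by simpa using h')]
    · rw [if_neg (by simp [h]), Function.extend_apply' _ _ _ (hno i (k, s') h)]
      rw [Finset.sum_eq_zero, Polynomial.C_0]
      intro b _
      rw [ee, faH_mk, zero_mul]
  have hu : u = ∑ i : Fin n × κ, ((C (faH i0 B i u) : PolyAlg K c n) •
      mmap i0 B (pt i.1) (hpt i.1) (nu i0 B i.2) +
      (Polynomial.aeval (X (i0, i.1)) (fgH i0 B i u).divX : PolyAlg K c n) •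
        mmap i0 B (pt i.1) (hpt i.1) (ee i0 B i.2)) := by
    apply OM_ext
    · intro k
      rw [map_sum]
      have e0 : ∀ i ∈ Finset.univ, faH i0 B k
          ((C (faH i0 B i u) : PolyAlg K c n) • mmap i0 B (pt i.1) (hpt i.1) (nu i0 B i.2) +
          (Polynomial.aeval (X (i0, i.1)) (fgH i0 B i u).divX : PolyAlg K c n) •
          mmap i0 B (pt i.1) (hpt i.1) (ee i0 B i.2)) = if i = k then faH i0 B i u else 0 := by
        intro i _
        rw [map_add, faH_smul, faH_smul, hnu1, hee1, mul_zero, add_zero, constantCoeff_C]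
        split_ifs <;> simp
      rw [Finset.sum_congr rfl e0]
      simp
    · intro k
      rw [map_sum]
      have e0 : ∀ i ∈ Finset.univ, fgH i0 B k
          ((C (faH i0 B i u) : PolyAlg K c n) • mmap i0 B (pt i.1) (hpt i.1) (nu i0 B i.2) +
          (Polynomial.aeval (X (i0, i.1)) (fgH i0 B i u).divX : PolyAlg K c n) •
          mmap i0 B (pt i.1) (hpt i.1) (ee i0 B i.2)) =
          ev (i0, k.1) (C (faH i0 B i u) : PolyAlg K c n) * Polynomial.C (B n i k) +
          ev (i0, k.1) (Polynomial.aeval (X (i0, i.1)) (fgH i0 B i u).divX :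
          PolyAlg K c n) * (if i = k then Polynomial.X else 0) := by
        intro i _
        rw [map_add, fgH_smul, fgH_smul, hnu2, hee2]
      rw [Finset.sum_congr rfl e0, Finset.sum_add_distrib]
      have e1 : ∑ i, ev (i0, k.1) (C (faH i0 B i u) : PolyAlg K c n) * Polynomial.C (B n i k) =
          Polynomial.C ((fgH i0 B k u).coeff 0) := by
        rw [fgH_coeff, map_sum]
        refine Finset.sum_congr rfl fun i _ => ?_
        rw [map_mul]
        congr 1
        rw [ev, aeval_C]; rfl
      have e2 : ∑ i : Fin n × κ, ev (i0, k.1) (Polynomial.aeval (X (i0, i.1))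
          (fgH i0 B i u).divX : PolyAlg K c n) * (if i = k then Polynomial.X else 0) =
          (fgH i0 B k u).divX * Polynomial.X := by
        rw [Finset.sum_eq_single k]
        · rw [if_pos rfl, ← Polynomial.aeval_algHom_apply, ev_X, if_pos rfl,
            Polynomial.aeval_X_left_apply]
        · intro i _ hi
          rw [if_neg hi, mul_zero]
        · simp
      rw [e1, e2, add_comm, Polynomial.divX_mul_X_add]
  rw [hu]
  exact S.sum_mem fun i _ => S.add_mem (S.smul_mem _ (h1 i.1 i.2)) (S.smul_mem _ (h2 i.1 i.2))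

omit [DecidableEq κ] in
/-- the OI-module attached to an OI-compatible family of matrices -/
def oiMod (hB : ∀ {m n : ℕ} (ε : Fin m ↪o Fin n), Compat B ε) : GradedOIModule K c where
  obj n := (OM i0 B n).carrier
  gr n := (OM i0 B n).piece
  isGraded n := (OM i0 B n).isGradedModule
  map ε := mmap i0 B ε (hB ε)
  map_mem ε d u hu := by
    rw [mem_piece] at hu ⊢
    rw [mmap_comp, hu]
  map_id n u := mmap_id i0 B _ _ (fun _ => rfl) u
  map_comp ε δ u := mmap_trans i0 B ε (hB ε) δ (hB δ) (ε.trans δ) (hB _) (fun _ => rfl) u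
  map_smul ε p u := mmap_smul i0 B ε _ p u

/-- the generators -/
def gens (k : Bool × κ) : (OM i0 B 1).carrier := if k.1 then nu i0 B k.2 else ee i0 B k.2

theorem oiMod_finGen (hB : ∀ {m n : ℕ} (ε : Fin m ↪o Fin n), Compat B ε) :
    (oiMod i0 B hB).FinGen := by
  classical
  let e : Fin (Fintype.card (Bool × κ)) ≃ Bool × κ := (Fintype.equivFin _).symm
  refine ⟨Fintype.card (Bool × κ), fun _ => 1, fun k => gens i0 B (e k), ?_, ?_⟩
  · intro k
    rcases hk : e k with ⟨b, s⟩
    cases b
    · refine ⟨1, ?_⟩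
      simp only [hk, gens]
      exact ee_mem i0 B s
    · refine ⟨0, ?_⟩
      simp only [hk, gens]
      exact nu_mem i0 B s
  · intro n
    have h1 : ∀ (k : Bool × κ) (i : Fin n), (oiMod i0 B hB).map (pt i) (gens i0 B k) ∈
        Submodule.span (PolyAlg K c n) {u : (oiMod i0 B hB).obj n |
          ∃ (k : Fin (Fintype.card (Bool × κ))) (ε : Fin 1 ↪o Fin n),
            u = (oiMod i0 B hB).map ε (gens i0 B (e k))} := by
      intro k i
      refine Submodule.subset_span ⟨e.symm k, pt i, ?_⟩
      rw [Equiv.apply_symm_apply]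
    exact gen i0 B (fun i => pt i) (fun i => hB (pt i)) (fun i x => rfl) _
      (fun i s => h1 (true, s) i) (fun i s => h1 (false, s) i)

end

end Pool.Agent.Y109.OI
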