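import Pool.Agent.Y109.OI.B

/-!
# Matrices whose degeneracy is governed by a linear recurrence
-/

set_option autoImplicit false

open Finset

universe u

noncomputable section

namespace Pool.Agent.Y109.OI

open H379R3 H379R3.OIReg H379R3.GMod

section kernel

variable {K : Type u} [Field K] {κ : Type} [Fintype κ] [DecidableEq κ]
  (T : Matrix κ κ K) (x y : κ → K)

/-- the matrices -/
def Bk (n : ℕ) (i j : Fin n × κ) : K :=
  -(x i.2 * y j.2) + (if i.1 < j.1 then (if i.2 = j.2 then 1 else 0) - T i.2 j.2 else 0) +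
    (if i = j then 1 else 0)

lemma Bk_compat {m n : ℕ} (ε : Fin m ↪o Fin n) : Compat (Bk T x y) ε where
  inj := ε.injective
  eq i j := by
    have h1 : hat (κ := κ) ε i = hat ε j ↔ i = j :=
      (ε.injective.prodMap Function.injective_id).eq_iff
    have h2 : (hat (κ := κ) ε i).1 < (hat (κ := κ) ε j).1 ↔ i.1 < j.1 := ε.lt_iff_lt
    have h3 : ∀ i : Fin m × κ, (hat (κ := κ) ε i).2 = i.2 := fun _ => rfl
    unfold Bk
    simp only [h1, h2, h3]

/-- partial sums -/
def PS {n : ℕ} (v : Fin n × κ → K) (m : ℕ) (b : κ) : K :=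
  ∑ i : Fin n, if (i : ℕ) < m then v (i, b) else 0

omit [Fintype κ] [DecidableEq κ] in
lemma PS_succ {n : ℕ} (v : Fin n × κ → K) (m : ℕ) (hm : m < n) (b : κ) :
    PS v (m + 1) b = PS v m b + v (⟨m, hm⟩, b) := by
  unfold PS
  have h1 : v (⟨m, hm⟩, b) = ∑ i : Fin n, if i = ⟨m, hm⟩ then v (i, b) else 0 := by simp
  rw [h1, ← Finset.sum_add_distrib]
  refine Finset.sum_congr rfl fun i _ => ?_
  have h2 : i = ⟨m, hm⟩ ↔ (i : ℕ) = m := by rw [Fin.ext_iff]
  simp only [h2]
  rcases lt_trichotomy (i : ℕ) m with h | h | h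
  · rw [if_pos (by omega), if_pos h, if_neg (by omega), add_zero]
  · rw [if_pos (by omega), if_neg (by omega), if_pos h, zero_add]
  · rw [if_neg (by omega), if_neg (by omega), if_neg (by omega), add_zero]

omit [Fintype κ] [DecidableEq κ] in
lemma PS_zero {n : ℕ} (v : Fin n × κ → K) (b : κ) : PS v 0 b = 0 := by
  unfold PS
  simp

omit [Fintype κ] [DecidableEq κ] in
lemma PS_top {n : ℕ} (v : Fin n × κ → K) (b : κ) : PS v n b = ∑ i, v (i, b) := by
  unfold PS
  exact Finset.sum_congr rfl fun i _ => if_pos i.2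

lemma pair_eq {n : ℕ} (v : Fin n × κ → K) (j : Fin n) (b : κ) :
    ∑ i, v i * Bk T x y n i (j, b) = -((∑ a, PS v n a * x a) * y b) +
      (PS v j b - ∑ a, PS v j a * T a b) + v (j, b) := by
  have e0 : ∀ i : Fin n × κ, v i * Bk T x y n i (j, b) = -(v i * x i.2 * y b) +
      ((if (i.1 : ℕ) < j then v i * (if i.2 = b then 1 else 0) else 0) -
        (if (i.1 : ℕ) < j then v i * T i.2 b else 0)) + (if i = (j, b) then v i else 0) := by
    intro i
    unfold Bk
    have h1 : i.1 < j ↔ (i.1 : ℕ) < j := Iff.rfl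
    simp only [h1]
    split_ifs <;> ring
  rw [Finset.sum_congr rfl fun i _ => e0 i, Finset.sum_add_distrib, Finset.sum_add_distrib,
    Finset.sum_neg_distrib, Finset.sum_sub_distrib, ← Finset.sum_mul]
  congr 1
  · congr 1
    · congr 2
      rw [Fintype.sum_prod_type_right]
      refine Finset.sum_congr rfl fun a _ => ?_
      rw [PS_top, Finset.sum_mul]
    · congr 1
      · rw [Fintype.sum_prod_type]
        unfold PS
        refine Finset.sum_congr rfl fun i _ => ?_
        by_cases h : (i : ℕ) < j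
        · simp [h]
        · simp [h]
      · rw [Fintype.sum_prod_type_right]
        refine Finset.sum_congr rfl fun a _ => ?_
        unfold PS
        rw [Finset.sum_mul]
        refine Finset.sum_congr rfl fun i _ => ?_
        split_ifs <;> simp
  · simp

/-- the partial sums of the rows `y T ^ i` -/
def Gs (m : ℕ) (b : κ) : K := ∑ i ∈ range m, Matrix.vecMul y (T ^ i) b

lemma Gs_succ (m : ℕ) (b : κ) : Gs T y (m + 1) b = ∑ a, Gs T y m a * T a b + y b := by
  unfold Gs
  rw [Finset.sum_range_succ', pow_zero, Matrix.vecMul_one]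
  congr 1
  have e1 : ∀ i, Matrix.vecMul y (T ^ (i + 1)) b = ∑ a, Matrix.vecMul y (T ^ i) a * T a b := by
    intro i
    rw [pow_succ, ← Matrix.vecMul_vecMul]
    rfl
  rw [Finset.sum_congr rfl fun i _ => e1 i, Finset.sum_comm]
  exact Finset.sum_congr rfl fun a _ => (Finset.sum_mul _ _ _).symm

lemma Gs_zero (b : κ) : Gs T y 0 b = 0 := by simp [Gs]

lemma Gs_dot (n : ℕ) : ∑ a, Gs T y n a * x a = ∑ i ∈ range n, y ⬝ᵥ (T ^ i).mulVec x := by
  unfold Gs
  rw [Finset.sum_congr rfl fun a _ => Finset.sum_mul _ _ _, Finset.sum_comm]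
  refine Finset.sum_congr rfl fun i _ => ?_
  rw [Matrix.dotProduct_mulVec]
  rfl

lemma ker_zero {n : ℕ} (h : ∑ i ∈ range n, y ⬝ᵥ (T ^ i).mulVec x ≠ 1) (v : Fin n × κ → K)
    (hv : ∀ j, ∑ i, v i * Bk T x y n i j = 0) : v = 0 := by
  rw [← Gs_dot] at h
  set s : K := ∑ a, PS v n a * x a with hs
  have h1 : ∀ m, m ≤ n → ∀ b, PS v m b = s * Gs T y m b := by
    intro m
    induction m with
    | zero => intro _ b; rw [PS_zero, Gs_zero, mul_zero]
    | succ m ih =>
      intro hm b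
      have hm' : m < n := by omega
      have h2 := hv (⟨m, hm'⟩, b)
      rw [pair_eq, ← hs] at h2
      rw [PS_succ v m hm' b, Gs_succ]
      have h3 : ∑ a, PS v m a * T a b = s * ∑ a, Gs T y m a * T a b := by
        rw [Finset.mul_sum]
        refine Finset.sum_congr rfl fun a _ => ?_
        rw [ih (by omega) a]
        ring
      simp only [h3] at h2
      linear_combination h2
  have h4 : s = 0 := by
    have h5 : s = s * ∑ a, Gs T y n a * x a := by
      conv_lhs => rw [hs]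
      rw [Finset.mul_sum]
      refine Finset.sum_congr rfl fun a _ => ?_
      rw [h1 n le_rfl a]
      ring
    have h6 : s * (∑ a, Gs T y n a * x a - 1) = 0 := by linear_combination -h5
    exact (mul_eq_zero.1 h6).resolve_right (sub_ne_zero.2 h)
  funext ⟨j, b⟩
  have h7 := PS_succ v j j.2 b
  rw [h1 _ (by have := j.2; omega), h1 _ j.2.le, h4, zero_mul, zero_mul, zero_add] at h7
  exact h7.symm

lemma ker_exists {n : ℕ} (h : ∑ i ∈ range n, y ⬝ᵥ (T ^ i).mulVec x = 1) :
    ∃ v : Fin n × κ → K, v ≠ 0 ∧ ∀ j, ∑ i, v i * Bk T x y n i j = 0 := by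
  rw [← Gs_dot] at h
  let v : Fin n × κ → K := fun i => Gs T y (i.1 + 1) i.2 - Gs T y i.1 i.2
  have h1 : ∀ m, m ≤ n → ∀ b, PS v m b = Gs T y m b := by
    intro m
    induction m with
    | zero => intro _ b; rw [PS_zero, Gs_zero]
    | succ m ih =>
      intro hm b
      rw [PS_succ v m (by omega) b, ih (by omega) b]
      simp only [v]
      ring
  refine ⟨v, ?_, ?_⟩
  · intro hv
    have h2 : ∀ a, Gs T y n a = 0 := by
      intro a
      rw [← h1 n le_rfl a, PS_top]
      exact Finset.sum_eq_zero fun i _ => by rw [hv]; rfl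
    rw [Finset.sum_eq_zero fun a _ => by rw [h2 a, zero_mul]] at h
    exact zero_ne_one h
  · rintro ⟨j, b⟩
    rw [pair_eq]
    have h3 : ∑ a, PS v n a * x a = 1 := by
      rw [← h]
      exact Finset.sum_congr rfl fun a _ => by rw [h1 n le_rfl a]
    have h4 : ∑ a, PS v j a * T a b = ∑ a, Gs T y j a * T a b :=
      Finset.sum_congr rfl fun a _ => by rw [h1 _ j.2.le a]
    rw [h3, h4, h1 _ j.2.le]
    have h5 := Gs_succ T y j b
    have h6 : v (j, b) = Gs T y (j + 1) b - Gs T y j b := rfl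
    rw [h6, h5]
    ring

open Classical in
/-- the regularity of the module attached to `(T, x, y)` -/
theorem reg_core {c : ℕ} (i0 : Fin c) [Nonempty κ] (n : ℕ) (hn : 1 ≤ n) (r : ℤ) :
    (oiMod i0 (Bk T x y) (Bk_compat T x y)).HasReg n r ↔
      r = if ∑ i ∈ range n, y ⬝ᵥ (T ^ i).mulVec x = 1 then 1 else 0 := by
  obtain ⟨k0⟩ := ‹Nonempty κ›
  let t0 : Fin n × κ := (⟨0, hn⟩, k0)
  split_ifs with h
  · obtain ⟨v, hv0, hv⟩ := ker_exists T x y h
    exact reg_sing Prod.fst i0 (Bk T x y n) t0 (not_surj _ v hv0 hv) r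
  · exact reg_bij Prod.fst i0 (Bk T x y n) t0 (bij_of_inj _ (ker_zero T x y h)) r

end kernel

open Classical in
/-- Every linear recurrence occurs. -/
theorem recurrence {K : Type u} [Field K] {κ : Type} [Fintype κ] [DecidableEq κ]
    (T : Matrix κ κ K) (x y : κ → K) {c : ℕ} (hc : 1 ≤ c) :
    ∃ M : GradedOIModule K c, M.FinGen ∧ ∀ n : ℕ, 1 ≤ n → ∀ r : ℤ,
      M.HasReg n r ↔ r = if y ⬝ᵥ (T ^ n).mulVec x = 0 then 1 else 0 := by
  let i0 : Fin c := ⟨0, hc⟩
  let T' : Matrix (κ ⊕ Unit) (κ ⊕ Unit) K := Matrix.fromBlocks T 0 0 0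
  let x' : κ ⊕ Unit → K := Sum.elim x (fun _ => 1)
  let y' : κ ⊕ Unit → K := Sum.elim (y - Matrix.vecMul y T) (fun _ => 1 - y ⬝ᵥ x)
  refine ⟨oiMod i0 (Bk T' x' y') (Bk_compat T' x' y'), oiMod_finGen _ _ _, ?_⟩
  intro n hn r
  rw [reg_core T' x' y' i0 n hn r]
  have h1 : ∀ i, y' ⬝ᵥ (T' ^ i).mulVec x' =
      (y ⬝ᵥ (T ^ i).mulVec x - y ⬝ᵥ (T ^ (i + 1)).mulVec x) + (1 - y ⬝ᵥ x) * 0 ^ i := by
    intro i
    have e1 : T' ^ i = Matrix.fromBlocks (T ^ i) 0 0 ((0 : Matrix Unit Unit K) ^ i) :=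
      Matrix.fromBlocks_diagonal_pow T 0 i
    have e2 : (T' ^ i).mulVec x' = Sum.elim ((T ^ i).mulVec x) (fun _ => (0 : K) ^ i) := by
      rw [e1, Matrix.fromBlocks_mulVec]
      funext a
      rcases a with a | a
      · simp [x']
      · cases i with
        | zero => simp [x', Matrix.mulVec, dotProduct]
        | succ i => simp [x', Matrix.mulVec, dotProduct]
    rw [e2]
    simp only [y', dotProduct, Fintype.sum_sum_type, Sum.elim_inl, Sum.elim_inr,
      Finset.univ_unique, Finset.sum_singleton, Pi.sub_apply, sub_mul, Finset.sum_sub_distrib]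
    congr 1
    congr 1
    have e3 := Matrix.dotProduct_mulVec y T ((T ^ i).mulVec x)
    rw [Matrix.mulVec_mulVec, ← pow_succ'] at e3
    exact e3.symm
  have h2 : ∀ n : ℕ, 1 ≤ n → ∑ i ∈ range n, y' ⬝ᵥ (T' ^ i).mulVec x' =
      1 - y ⬝ᵥ (T ^ n).mulVec x := by
    intro n hn
    induction n, hn using Nat.le_induction with
    | base =>
      rw [Finset.sum_range_one, h1]
      simp
    | succ n hn ih =>
      rw [Finset.sum_range_succ, ih, h1, zero_pow (by omega)]
      ring
  rw [h2 n hn]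
  have h3 : (1 - y ⬝ᵥ (T ^ n).mulVec x = 1) ↔ (y ⬝ᵥ (T ^ n).mulVec x = 0) := by
    constructor
    · intro h
      linear_combination -h
    · intro h
      rw [h, sub_zero]
  simp only [h3]

end Pool.Agent.Y109.OI
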