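import Pool.Agent.Y109.OI.C

/-!
# Consequences: periodic sets, and the powers of `p`
-/

set_option autoImplicit false

open Finset

universe u

noncomputable section

namespace Pool.Agent.Y109.OI

open H379R3 H379R3.OIReg H379R3.GMod

section periodic

variable {K : Type u} [Field K]

/-- the cyclic shift -/
def shift (K : Type u) [Field K] (m : ℕ) : Matrix (ZMod m) (ZMod m) K :=
  Matrix.of fun i j => if j = i + 1 then 1 else 0

lemma shift_pow (m : ℕ) [NeZero m] (n : ℕ) (w : ZMod m → K) (i : ZMod m) :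
    ((shift K m) ^ n).mulVec w i = w (i + n) := by
  induction n generalizing i w with
  | zero => simp
  | succ n ih =>
    rw [pow_succ, ← Matrix.mulVec_mulVec, ih]
    have h1 : ∀ j, (shift K m).mulVec w j = w (j + 1) := by
      intro j
      simp [Matrix.mulVec, dotProduct, shift]
    rw [h1]
    push_cast
    congr 1
    ring

open Classical in
/-- Every periodic set occurs. -/
theorem periodic (K : Type u) [Field K] {c : ℕ} (hc : 1 ≤ c) (m : ℕ) (hm : 1 ≤ m) (R : Set ℕ) :
    ∃ M : GradedOIModule K c, M.FinGen ∧ ∀ n : ℕ, 1 ≤ n → ∀ r : ℤ,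
      M.HasReg n r ↔ r = if n % m ∈ R then 1 else 0 := by
  have : NeZero m := ⟨by omega⟩
  obtain ⟨M, hM, h⟩ := recurrence (shift K m) (fun j => if j.val ∈ R then 0 else 1)
    (Pi.single 0 1) hc
  refine ⟨M, hM, fun n hn r => ?_⟩
  rw [h n hn r, single_dotProduct, one_mul, shift_pow, zero_add, ZMod.val_natCast]
  by_cases h1 : n % m ∈ R
  · simp [h1]
  · simp [h1]

end periodic

section powers

open Polynomial

variable (p : ℕ) [hp : Fact p.Prime]

lemma freshman_iff (n : ℕ) (hn : 1 ≤ n) :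
    ((1 + X : (ZMod p)[X]) ^ n = 1 + X ^ n) ↔ ∃ k, n = p ^ k := by
  constructor
  · induction n using Nat.strong_induction_on with
    | _ n ih =>
      intro h
      by_cases h1 : n = 1
      · exact ⟨0, by simpa using h1⟩
      have hpn : p ∣ n := by
        rw [← ZMod.natCast_eq_zero_iff]
        have h2 := congrArg (fun q => coeff q 1) h
        simp only [coeff_one_add_X_pow, coeff_add, coeff_one, coeff_X_pow] at h2
        simpa [show (1 : ℕ) ≠ n by omega] using h2
      obtain ⟨m, rfl⟩ := hpn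
      have hm : 1 ≤ m := Nat.pos_of_ne_zero (by rintro rfl; omega)
      have hlt : m < p * m := by
        have := hp.out.two_le
        nlinarith
      have h3 : (1 + X : (ZMod p)[X]) ^ m = 1 + X ^ m := by
        apply frobenius_inj (ZMod p)[X] p
        rw [frobenius_def, frobenius_def, add_pow_char (p := p) (1 : (ZMod p)[X]) (X ^ m), one_pow, ← pow_mul, ← pow_mul,
          mul_comm m p]
        exact h
      obtain ⟨k, hk⟩ := ih m hlt hm h3
      exact ⟨k + 1, by rw [hk, pow_succ']⟩
  · rintro ⟨k, rfl⟩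
    rw [add_pow_char_pow, one_pow]

open Classical in
/-- The set of powers of `p` occurs over every field of characteristic `p` that is not algebraic
over its prime field. -/
theorem powers {K : Type u} [Field K] [Algebra (ZMod p) K] (t : K)
    (ht : Transcendental (ZMod p) t) {c : ℕ} (hc : 1 ≤ c) :
    ∃ M : GradedOIModule K c, M.FinGen ∧ ∀ n : ℕ, 1 ≤ n → ∀ r : ℤ,
      M.HasReg n r ↔ r = if ∃ k, n = p ^ k then 1 else 0 := by
  obtain ⟨M, hM, h⟩ := recurrence (Matrix.diagonal ![1 + t, t, 1]) (fun _ => 1) ![1, -1, -1] hc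
  refine ⟨M, hM, fun n hn r => ?_⟩
  rw [h n hn r]
  have h1 : (![1, -1, -1] : Fin 3 → K) ⬝ᵥ
      ((Matrix.diagonal ![1 + t, t, 1]) ^ n).mulVec (fun _ => 1) = (1 + t) ^ n - (1 + t ^ n) := by
    rw [Matrix.diagonal_pow]
    simp [dotProduct, Fin.sum_univ_three, Matrix.mulVec_diagonal]
    ring
  have h2 : (![1, -1, -1] : Fin 3 → K) ⬝ᵥ
      ((Matrix.diagonal ![1 + t, t, 1]) ^ n).mulVec (fun _ => 1) = 0 ↔ ∃ k, n = p ^ k := by
    rw [h1, ← freshman_iff p n hn, sub_eq_zero]
    constructor
    · intro h3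
      have h4 : aeval t ((1 + X : (ZMod p)[X]) ^ n - (1 + X ^ n)) = 0 := by
        simp [h3]
      have h5 := (transcendental_iff.1 ht) _ h4
      exact sub_eq_zero.1 h5
    · intro h3
      have h4 := congrArg (aeval t) h3
      simpa using h4
  simp only [h2]

end powers

/-- The relation `reg n = r` is eventually quasi-linear: there are a period `m ≥ 1` and integers
`a_s`, `b_s` for every residue `s` modulo `m` such that `reg n = a_s n + b_s` for all large `n`
congruent to `s` modulo `m`. -/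
def EventuallyQuasiLinear (reg : ℕ → ℤ → Prop) : Prop :=
  ∃ m : ℕ, 1 ≤ m ∧ ∃ a b : ℕ → ℤ, ∃ n₀ : ℕ, ∀ n : ℕ, n₀ ≤ n →
    reg n (a (n % m) * (n : ℤ) + b (n % m))

open Classical in
/-- The indicator function of the powers of `p` is not eventually quasi-linear. -/
theorem not_quasiLinear (p : ℕ) (hp : 2 ≤ p) (reg : ℕ → ℤ → Prop)
    (hreg : ∀ n : ℕ, 1 ≤ n → ∀ r : ℤ, reg n r ↔ r = if ∃ k, n = p ^ k then 1 else 0) :
    ¬ EventuallyQuasiLinear reg := by
  rintro ⟨m, hm, a, b, N, h⟩
  obtain ⟨k, hk⟩ : ∃ k, N + m + 1 ≤ p ^ k :=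
    ⟨N + m + 1, (Nat.lt_pow_self (by omega)).le⟩
  set s := p ^ k % m with hs
  have hmod : ∀ j, (p ^ k + j * m) % m = s := by
    intro j
    rw [Nat.add_mul_mod_self_right]
  have e : ∀ j, a s * ((p ^ k + j * m : ℕ) : ℤ) + b s =
      if ∃ l, p ^ k + j * m = p ^ l then 1 else 0 := by
    intro j
    have h1 := h (p ^ k + j * m) (by omega)
    rw [hmod] at h1
    exact (hreg _ (by omega) _).1 h1
  have hv : ∀ j, a s * ((p ^ k + j * m : ℕ) : ℤ) + b s = 0 ∨
      a s * ((p ^ k + j * m : ℕ) : ℤ) + b s = 1 := by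
    intro j
    rw [e j]
    split_ifs
    · exact Or.inr rfl
    · exact Or.inl rfl
  have ha : a s = 0 := by
    by_contra ha
    have h0 := hv 0
    have h2 := hv 2
    push_cast at h0 h2
    have h3 : (a s * ((p : ℤ) ^ k + 2 * m) + b s) - (a s * ((p : ℤ) ^ k + 0 * m) + b s) =
        2 * (a s * m) := by ring
    have h4 : a s * (m : ℤ) = 0 := by omega
    rcases mul_eq_zero.1 h4 with h5 | h5
    · exact ha h5
    · have : m = 0 := by exact_mod_cast h5
      omega
  have e0 := e 0
  have e1 := e 1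
  rw [ha, zero_mul, zero_add] at e0 e1
  rw [if_pos ⟨k, by omega⟩] at e0
  have h5 : ¬ ∃ l, p ^ k + 1 * m = p ^ l := by
    rintro ⟨l, hl⟩
    have h6 : k < l := by
      rw [← Nat.pow_lt_pow_iff_right (show 1 < p by omega)]
      omega
    have h7 : p ^ (k + 1) ≤ p ^ l := Nat.pow_le_pow_right (by omega) h6
    rw [pow_succ] at h7
    nlinarith
  rw [if_neg h5] at e1
  rw [e0] at e1
  exact one_ne_zero e1

end Pool.Agent.Y109.OI
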